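import Mathlib

/-!
# The graded Lie ring of the lower central series of a group

`E0 G = ⨁ Γ_k / Γ_{k+1}` with the bracket induced by the group commutator.
-/

set_option autoImplicit false

namespace Pool.Agent.Q7.GL

open Subgroup DirectSum
open scoped commutatorElement

/-- `Gam G n` is the term `Γ_{n+1} G` of the lower central series of `G`:
`Gam G 0 = G` and `Gam G (n+1) = [Gam G n, G]`. -/
def Gam (G : Type*) [Group G] (n : ℕ) : Subgroup G :=
  (⊤ : Subgroup G).lowerCentralSeries n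

section

variable {G : Type*} [Group G]

instance (n : ℕ) : (Gam G n).Normal := by
  unfold Gam; infer_instance

lemma Gam_zero : Gam G 0 = ⊤ := rfl

lemma Gam_succ (n : ℕ) : Gam G (n + 1) = ⁅Gam G n, (⊤ : Subgroup G)⁆ := rfl

lemma Gam_anti : Antitone (Gam G) := (⊤ : Subgroup G).lowerCentralSeries_antitone

lemma Gam_succ_le (n : ℕ) : Gam G (n + 1) ≤ Gam G n := Gam_anti (Nat.le_succ n)

lemma comm_le (i j : ℕ) : ⁅Gam G i, Gam G j⁆ ≤ Gam G (i + j + 1) := by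
  induction j generalizing i with
  | zero => exact le_of_eq rfl
  | succ j ih =>
    have h1 : ⁅⁅(⊤ : Subgroup G), Gam G i⁆, Gam G j⁆ ≤ Gam G (i + (j + 1) + 1) := by
      have : ⁅(⊤ : Subgroup G), Gam G i⁆ ≤ Gam G (i + 1) := by
        rw [Subgroup.commutator_comm]; exact le_of_eq rfl
      refine (Subgroup.commutator_mono this le_rfl).trans ((ih (i + 1)).trans (le_of_eq ?_))
      congr 1; omega
    have h2 : ⁅⁅Gam G i, Gam G j⁆, (⊤ : Subgroup G)⁆ ≤ Gam G (i + (j + 1) + 1) := by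
      exact Subgroup.commutator_mono (ih i) le_rfl
    have key : ∀ N : Subgroup G, N.Normal → ⁅⁅(⊤ : Subgroup G), Gam G i⁆, Gam G j⁆ ≤ N →
        ⁅⁅Gam G i, Gam G j⁆, (⊤ : Subgroup G)⁆ ≤ N →
        ⁅⁅Gam G j, (⊤ : Subgroup G)⁆, Gam G i⁆ ≤ N := by
      intro N hN h1 h2
      have e : ∀ K : Subgroup G, K ≤ N ↔ K.map (QuotientGroup.mk' N) = ⊥ := by
        intro K
        rw [Subgroup.map_eq_bot_iff, QuotientGroup.ker_mk']
      rw [e] at h1 h2 ⊢
      simp only [Subgroup.map_commutator] at h1 h2 ⊢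
      exact Subgroup.commutator_commutator_eq_bot_of_rotate h1 h2
    have h3 := key _ inferInstance h1 h2
    rw [Subgroup.commutator_comm] at h3
    exact h3

lemma comm_mem {i j : ℕ} {g h : G} (hg : g ∈ Gam G i) (hh : h ∈ Gam G j) :
    ⁅g, h⁆ ∈ Gam G (i + j + 1) :=
  comm_le i j (Subgroup.commutator_mem_commutator hg hh)

lemma comm_mem' {i j k : ℕ} {g h : G} (hg : g ∈ Gam G i) (hh : h ∈ Gam G j) (hk : k ≤ i + j + 1) :
    ⁅g, h⁆ ∈ Gam G k :=
  Gam_anti hk (comm_mem hg hh)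

lemma quot_mul_comm (n : ℕ) (x y : Gam G n ⧸ (Gam G (n + 1)).subgroupOf (Gam G n)) :
    x * y = y * x := by
  obtain ⟨a, rfl⟩ := QuotientGroup.mk_surjective x
  obtain ⟨b, rfl⟩ := QuotientGroup.mk_surjective y
  refine QuotientGroup.eq.2 ?_
  rw [Subgroup.mem_subgroupOf]
  have : (((a * b)⁻¹ * (b * a) : Gam G n) : G) = ⁅(b : G)⁻¹, (a : G)⁻¹⁆ := by
    simp [commutatorElement_def, mul_assoc]
  rw [this]
  exact comm_mem' (i := n) (j := n) (inv_mem b.2) (inv_mem a.2) (by omega)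

instance instCG (n : ℕ) : CommGroup (Gam G n ⧸ (Gam G (n + 1)).subgroupOf (Gam G n)) :=
  CommGroup.mk (quot_mul_comm n)

end

/-- `gr G n` is the degree `n + 1` piece `Γ_{n+1} G / Γ_{n+2} G`, written additively. -/
def gr (G : Type*) [Group G] (n : ℕ) : Type _ :=
  Additive (Gam G n ⧸ (Gam G (n + 1)).subgroupOf (Gam G n))

section

variable {G : Type*} [Group G]

instance instACG (n : ℕ) : AddCommGroup (gr G n) := @Additive.addCommGroup _ (instCG n)

/-- the class of `g ∈ Γ_{n+1}` in `Γ_{n+1} / Γ_{n+2}` -/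
def cl (n : ℕ) (g : G) (hg : g ∈ Gam G n) : gr G n :=
  Additive.ofMul (QuotientGroup.mk ⟨g, hg⟩)

lemma cl_surj {n : ℕ} (x : gr G n) : ∃ g, ∃ hg : g ∈ Gam G n, x = cl n g hg := by
  obtain ⟨⟨g, hg⟩, h⟩ := QuotientGroup.mk_surjective (Additive.toMul x)
  exact ⟨g, hg, h.symm⟩

lemma cl_mul {n : ℕ} {g h : G} (hg : g ∈ Gam G n) (hh : h ∈ Gam G n) :
    cl n (g * h) (mul_mem hg hh) = cl n g hg + cl n h hh := rfl

lemma cl_one {n : ℕ} : cl n (1 : G) (one_mem _) = 0 := rfl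

lemma cl_inv {n : ℕ} {g : G} (hg : g ∈ Gam G n) :
    cl n g⁻¹ (inv_mem hg) = - cl n g hg := rfl

lemma cl_eq_iff {n : ℕ} {g h : G} (hg : g ∈ Gam G n) (hh : h ∈ Gam G n) :
    cl n g hg = cl n h hh ↔ g⁻¹ * h ∈ Gam G (n + 1) := by
  have : cl n g hg = cl n h hh ↔
      (QuotientGroup.mk ⟨g, hg⟩ : Gam G n ⧸ (Gam G (n + 1)).subgroupOf (Gam G n))
        = QuotientGroup.mk ⟨h, hh⟩ := Iff.rfl
  rw [this, QuotientGroup.eq, Subgroup.mem_subgroupOf]
  rfl

lemma cl_eq_zero_iff {n : ℕ} {g : G} (hg : g ∈ Gam G n) :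
    cl n g hg = 0 ↔ g ∈ Gam G (n + 1) := by
  rw [← cl_one, cl_eq_iff]
  simp

/-- conjugation does not change the class -/
lemma cl_conj {n : ℕ} {g : G} (hg : g ∈ Gam G n) (t : G) :
    cl n (t * g * t⁻¹) ((inferInstance : (Gam G n).Normal).conj_mem g hg t) = cl n g hg := by
  rw [eq_comm, cl_eq_iff]
  have : g⁻¹ * (t * g * t⁻¹) = ⁅g⁻¹, t⁆ := by simp [commutatorElement_def, mul_assoc]
  rw [this]
  exact comm_mem (i := n) (j := 0) (inv_mem hg) trivial

lemma cl_congr {n : ℕ} {g h : G} (hg : g ∈ Gam G n) (e : g = h) :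
    cl n g hg = cl n h (e ▸ hg) := by
  subst e; rfl

/-- the commutator of `g ∈ Γ_{i+1}` and `h ∈ Γ_{j+1}` as an element of `Γ_{i+j+2}` -/
def brPre (i j : ℕ) (g : Gam G i) (h : Gam G j) : Gam G (i + j + 1) :=
  ⟨⁅(g : G), (h : G)⁆, comm_mem g.2 h.2⟩

lemma brPre_wd (i j : ℕ) ⦃g g' : Gam G i⦄
    (hgg : (QuotientGroup.leftRel ((Gam G (i + 1)).subgroupOf (Gam G i))) g g')
    ⦃h h' : Gam G j⦄ (hhh : (QuotientGroup.leftRel ((Gam G (j + 1)).subgroupOf (Gam G j))) h h') :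
    (QuotientGroup.leftRel ((Gam G (i + j + 1 + 1)).subgroupOf (Gam G (i + j + 1))))
      (brPre i j g h) (brPre i j g' h') := by
  obtain ⟨g, hg⟩ := g
  obtain ⟨g', hg'⟩ := g'
  obtain ⟨h, hh⟩ := h
  obtain ⟨h', hh'⟩ := h'
  replace hgg := QuotientGroup.leftRel_apply.1 hgg
  replace hhh := QuotientGroup.leftRel_apply.1 hhh
  refine QuotientGroup.leftRel_apply.2 ?_
  rw [Subgroup.mem_subgroupOf] at hgg hhh ⊢
  simp only [Subgroup.coe_mul, InvMemClass.coe_inv, brPre] at hgg hhh ⊢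
  obtain ⟨a, rfl⟩ : ∃ a, g' = g * a := ⟨g⁻¹ * g', by group⟩
  obtain ⟨b, rfl⟩ : ∃ b, h' = h * b := ⟨h⁻¹ * h', by group⟩
  have ha : a ∈ Gam G (i + 1) := by simpa using hgg
  have hb : b ∈ Gam G (j + 1) := by simpa using hhh
  have e : ⁅g, h⁆⁻¹ * ⁅g * a, h * b⁆ =
      ⁅g, h⁆⁻¹ * (g * ⁅a, h * b⁆ * g⁻¹) * ⁅g, h⁆ * (h * ⁅g, b⁆ * h⁻¹) := by
    simp [commutatorElement_def, mul_assoc]
  rw [e]
  refine mul_mem ?_ ?_
  · have h1 : g * ⁅a, h * b⁆ * g⁻¹ ∈ Gam G (i + j + 1 + 1) :=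
      (inferInstance : (Gam G (i + j + 1 + 1)).Normal).conj_mem _
        (comm_mem' (i := i + 1) (j := j) ha hh' (by omega)) g
    have := (inferInstance : (Gam G (i + j + 1 + 1)).Normal).conj_mem _ h1 ⁅g, h⁆⁻¹
    simpa using this
  · exact (inferInstance : (Gam G (i + j + 1 + 1)).Normal).conj_mem _
      (comm_mem' (i := i) (j := j + 1) hg hb (by omega)) h

/-- the bracket `Γ_{i+1}/Γ_{i+2} × Γ_{j+1}/Γ_{j+2} → Γ_{i+j+2}/Γ_{i+j+3}` induced by the
commutator of the group -/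
def brFun (i j : ℕ) (x : gr G i) (y : gr G j) : gr G (i + j + 1) :=
  Quotient.map₂ (brPre i j) (brPre_wd i j) x y

lemma brFun_cl {i j : ℕ} {g h : G} (hg : g ∈ Gam G i) (hh : h ∈ Gam G j) :
    brFun i j (cl i g hg) (cl j h hh) = cl (i + j + 1) ⁅g, h⁆ (comm_mem hg hh) := rfl

lemma brFun_add_left {i j : ℕ} (x x' : gr G i) (y : gr G j) :
    brFun i j (x + x') y = brFun i j x y + brFun i j x' y := by
  obtain ⟨g, hg, rfl⟩ := cl_surj x
  obtain ⟨g', hg', rfl⟩ := cl_surj x'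
  obtain ⟨h, hh, rfl⟩ := cl_surj y
  rw [← cl_mul, brFun_cl, brFun_cl, brFun_cl, ← cl_conj (comm_mem hg' hh) g,
    _root_.add_comm (cl _ _ _) (cl _ _ _), ← cl_mul]
  apply cl_congr
  simp [commutatorElement_def, mul_assoc]

lemma brFun_add_right {i j : ℕ} (x : gr G i) (y y' : gr G j) :
    brFun i j x (y + y') = brFun i j x y + brFun i j x y' := by
  obtain ⟨g, hg, rfl⟩ := cl_surj x
  obtain ⟨h, hh, rfl⟩ := cl_surj y
  obtain ⟨h', hh', rfl⟩ := cl_surj y'
  rw [← cl_mul, brFun_cl, brFun_cl, brFun_cl, ← cl_conj (comm_mem hg hh') h, ← cl_mul]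
  apply cl_congr
  simp [commutatorElement_def, mul_assoc]

/-- the bracket with `x` as an additive map -/
def brHom₁ (i j : ℕ) (x : gr G i) : gr G j →+ gr G (i + j + 1) :=
  AddMonoidHom.mk' (brFun i j x) (brFun_add_right x)

end

/-- `E0 G` is the direct sum of the groups `Γ_k G / Γ_{k+1} G`, `k ≥ 1`. -/
def E0 (G : Type*) [Group G] : Type _ := ⨁ n : ℕ, gr G n

section

variable {G : Type*} [Group G]

noncomputable instance instE0 : AddCommGroup (E0 G) :=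
  (DirectSum.instAddCommGroup : AddCommGroup (DirectSum ℕ (fun n => gr G n)))

/-- the inclusion of the degree `n + 1` piece -/
noncomputable def E0.of (n : ℕ) : gr G n →+ E0 G := DirectSum.of (fun n => gr G n) n

/-- additive maps out of `E0 G` -/
noncomputable def E0.lift {A : Type*} [AddCommGroup A] (f : ∀ n, gr G n →+ A) : E0 G →+ A :=
  DirectSum.toAddMonoid f

lemma E0.lift_of {A : Type*} [AddCommGroup A] (f : ∀ n, gr G n →+ A) (n : ℕ) (x : gr G n) :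
    E0.lift f (E0.of n x) = f n x := DirectSum.toAddMonoid_of f n x

lemma E0.ind {p : E0 G → Prop} (h0 : p 0) (hc : ∀ n x, p (E0.of n x))
    (ha : ∀ x y, p x → p y → p (x + y)) (x : E0 G) : p x :=
  DirectSum.induction_on x h0 hc ha

/-- the bracket of a homogeneous element with elements of `E0 G` -/
noncomputable def E0.ad₁ (i : ℕ) (x : gr G i) : E0 G →+ E0 G :=
  E0.lift (fun j => (E0.of (i + j + 1)).comp (brHom₁ i j x))

lemma E0.ad₁_of (i j : ℕ) (x : gr G i) (y : gr G j) :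
    E0.ad₁ i x (E0.of j y) = E0.of (i + j + 1) (brFun i j x y) := by
  rw [E0.ad₁, E0.lift_of]; rfl

lemma E0.ad₁_add (i : ℕ) (x x' : gr G i) (y : E0 G) :
    E0.ad₁ i (x + x') y = E0.ad₁ i x y + E0.ad₁ i x' y := by
  induction y using E0.ind with
  | h0 => rw [map_zero, map_zero, map_zero, add_zero]
  | hc j y => rw [E0.ad₁_of, E0.ad₁_of, E0.ad₁_of, brFun_add_left, map_add]
  | ha y y' h h' =>
    rw [map_add, map_add, map_add, h, h']
    abel

/-- the bracket with `y` on a homogeneous piece -/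
noncomputable def E0.ad₂ (y : E0 G) (i : ℕ) : gr G i →+ E0 G :=
  AddMonoidHom.mk' (fun x => E0.ad₁ i x y) (fun x x' => E0.ad₁_add i x x' y)

/-- the bracket of `E0 G`, additive in the first variable -/
noncomputable def E0.brk (y : E0 G) : E0 G →+ E0 G := E0.lift (E0.ad₂ y)

lemma E0.brk_of (i j : ℕ) (x : gr G i) (y : gr G j) :
    E0.brk (E0.of j y) (E0.of i x) = E0.of (i + j + 1) (brFun i j x y) := by
  rw [E0.brk, E0.lift_of]
  exact E0.ad₁_of i j x y

lemma E0.brk_add (y y' x : E0 G) : E0.brk (y + y') x = E0.brk y x + E0.brk y' x := by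
  induction x using E0.ind with
  | h0 => rw [map_zero, map_zero, map_zero, add_zero]
  | hc i x =>
    have h : ∀ y, E0.brk y (E0.of i x) = E0.ad₁ i x y := by
      intro y; rw [E0.brk, E0.lift_of]; rfl
    rw [h, h, h, map_add]
  | ha x x' h h' =>
    rw [map_add, map_add, map_add, h, h']
    abel

noncomputable instance instBr : Bracket (E0 G) (E0 G) := ⟨fun x y => E0.brk y x⟩

/-- the class of `g ∈ Γ_{n+1}` as an element of `E0 G` -/
noncomputable def c (n : ℕ) (g : G) (hg : g ∈ Gam G n) : E0 G := E0.of n (cl n g hg)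

lemma lie_c {i j : ℕ} {g h : G} (hg : g ∈ Gam G i) (hh : h ∈ Gam G j) :
    ⁅c i g hg, c j h hh⁆ = c (i + j + 1) ⁅g, h⁆ (comm_mem hg hh) := by
  change E0.brk (c j h hh) (c i g hg) = _
  unfold c
  rw [E0.brk_of, brFun_cl]

lemma c_congr {m n : ℕ} {g h : G} (hg : g ∈ Gam G m) (e : m = n) (e' : g = h) :
    c m g hg = c n h (e ▸ e' ▸ hg) := by
  subst e; subst e'; rfl

lemma c_mul {n : ℕ} {g h : G} (hg : g ∈ Gam G n) (hh : h ∈ Gam G n) :
    c n (g * h) (mul_mem hg hh) = c n g hg + c n h hh := by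
  unfold c; rw [cl_mul, map_add]

lemma c_inv {n : ℕ} {g : G} (hg : g ∈ Gam G n) :
    c n g⁻¹ (inv_mem hg) = - c n g hg := by
  unfold c; rw [cl_inv, map_neg]

lemma c_one {n : ℕ} : c n (1 : G) (one_mem _) = 0 := by
  unfold c; rw [cl_one, map_zero]

lemma c_conj {n : ℕ} {g : G} (hg : g ∈ Gam G n) (t : G) :
    c n (t * g * t⁻¹) ((inferInstance : (Gam G n).Normal).conj_mem g hg t) = c n g hg := by
  unfold c; rw [cl_conj]

lemma E0.induction {p : E0 G → Prop} (h0 : p 0)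
    (hc : ∀ n g hg, p (c n g hg)) (ha : ∀ x y, p x → p y → p (x + y)) (x : E0 G) : p x := by
  refine E0.ind h0 ?_ ha x
  intro n y
  obtain ⟨g, hg, rfl⟩ := cl_surj y
  exact hc n g hg

lemma add_brk (x y z : E0 G) : ⁅x + y, z⁆ = ⁅x, z⁆ + ⁅y, z⁆ := by
  change E0.brk z (x + y) = E0.brk z x + E0.brk z y
  rw [map_add]

lemma brk_add (x y z : E0 G) : ⁅x, y + z⁆ = ⁅x, y⁆ + ⁅x, z⁆ := by
  exact E0.brk_add y z x

lemma zero_brk (x : E0 G) : ⁅(0 : E0 G), x⁆ = 0 := by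
  change E0.brk x 0 = 0
  rw [map_zero]

lemma brk_zero (x : E0 G) : ⁅x, (0 : E0 G)⁆ = 0 := by
  have := brk_add x 0 0
  rw [add_zero] at this
  exact left_eq_add.1 this

lemma brk_skew (x y : E0 G) : ⁅x, y⁆ = -⁅y, x⁆ := by
  induction x using E0.induction with
  | h0 => rw [zero_brk, brk_zero, neg_zero]
  | ha x x' hx hx' => rw [add_brk, brk_add, hx, hx', neg_add]
  | hc i g hg =>
    induction y using E0.induction with
    | h0 => rw [zero_brk, brk_zero, neg_zero]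
    | ha y y' hy hy' => rw [add_brk, brk_add, hy, hy', neg_add]
    | hc j h hh =>
      rw [lie_c, lie_c, ← c_inv]
      exact c_congr _ (by omega) (commutatorElement_inv h g).symm

lemma brk_self (x : E0 G) : ⁅x, x⁆ = 0 := by
  induction x using E0.induction with
  | h0 => exact zero_brk _
  | ha x y hx hy =>
    rw [add_brk, brk_add, brk_add, hx, hy, brk_skew x y]
    simp
  | hc i g hg =>
    rw [lie_c, ← c_one (n := i + i + 1)]
    exact c_congr _ rfl (commutatorElement_self g)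

lemma neg_brk (x y : E0 G) : ⁅-x, y⁆ = -⁅x, y⁆ := by
  change E0.brk y (-x) = -E0.brk y x
  rw [map_neg]

lemma brk_neg (x y : E0 G) : ⁅x, -y⁆ = -⁅x, y⁆ := by
  have := brk_add x y (-y)
  rw [add_neg_cancel, brk_zero] at this
  exact (neg_eq_of_add_eq_zero_right this.symm).symm

lemma jac_c {i j k : ℕ} {x y z : G} (hx : x ∈ Gam G i) (hy : y ∈ Gam G j) (hz : z ∈ Gam G k) :
    ⁅c k z hz, ⁅c i x hx, c j y hy⁆⁆ =
      -⁅c j y hy, ⁅c k z hz, c i x hx⁆⁆ + -⁅c i x hx, ⁅c j y hy, c k z hz⁆⁆ := by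
  have hA : ⁅c j y hy, ⁅c k z hz, c i x hx⁆⁆ = ⁅c j y hy, ⁅c k z⁻¹ (inv_mem hz),
      c i x⁻¹ (inv_mem hx)⁆⁆ := by
    simp only [c_inv hz, c_inv hx, neg_brk, brk_neg, neg_neg]
  have hB : ⁅c i x hx, ⁅c j y hy, c k z hz⁆⁆ = ⁅c i x⁻¹ (inv_mem hx), ⁅c j y⁻¹ (inv_mem hy),
      c k z hz⁆⁆ := by
    simp only [c_inv hx, c_inv hy, neg_brk, brk_neg, neg_neg]
  rw [hA, hB]
  simp only [lie_c]
  have mA : ⁅y, ⁅z⁻¹, x⁻¹⁆⁆ ∈ Gam G (k + (i + j + 1) + 1) :=
    Gam_anti (by omega) (comm_mem hy (comm_mem (inv_mem hz) (inv_mem hx)))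
  have mB : ⁅x⁻¹, ⁅y⁻¹, z⁆⁆ ∈ Gam G (k + (i + j + 1) + 1) :=
    Gam_anti (by omega) (comm_mem (inv_mem hx) (comm_mem (inv_mem hy) hz))
  rw [c_congr (n := k + (i + j + 1) + 1) _ (by omega) (rfl : ⁅y, ⁅z⁻¹, x⁻¹⁆⁆ = _),
    c_congr (n := k + (i + j + 1) + 1) _ (by omega) (rfl : ⁅x⁻¹, ⁅y⁻¹, z⁆⁆ = _),
    ← c_inv mA, ← c_inv mB, ← c_conj (inv_mem mA) (x * z), ← c_conj (inv_mem mB) (x * y),
    ← c_mul]
  apply c_congr _ rfl
  simp [commutatorElement_def, mul_assoc]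

lemma jacobi (x y z : E0 G) : ⁅z, ⁅x, y⁆⁆ = -⁅y, ⁅z, x⁆⁆ + -⁅x, ⁅y, z⁆⁆ := by
  induction x using E0.induction with
  | h0 => simp only [zero_brk, brk_zero, neg_zero, add_zero]
  | ha x x' hx hx' =>
    simp only [add_brk, brk_add, hx, hx', neg_add]
    abel
  | hc i g hg =>
    induction y using E0.induction with
    | h0 => simp only [zero_brk, brk_zero, neg_zero, add_zero]
    | ha y y' hy hy' =>
      simp only [add_brk, brk_add, hy, hy', neg_add]
      abel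
    | hc j h hh =>
      induction z using E0.induction with
      | h0 => simp only [zero_brk, brk_zero, neg_zero, add_zero]
      | ha z z' hz hz' =>
        simp only [add_brk, brk_add, hz, hz', neg_add]
        abel
      | hc k l hl => exact jac_c hg hh hl

lemma leibniz (x y z : E0 G) : ⁅x, ⁅y, z⁆⁆ = ⁅⁅x, y⁆, z⁆ + ⁅y, ⁅x, z⁆⁆ := by
  rw [brk_skew ⁅x, y⁆ z, jacobi x y z, brk_skew x z, brk_neg]
  abel

noncomputable instance : LieRing (E0 G) where
  add_lie := add_brk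
  lie_add := brk_add
  lie_self := brk_self
  leibniz_lie := leibniz

end

end Pool.Agent.Q7.GL
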