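import Pool.Agent.Q7.GL.Magnus

/-!
# A cubic relation in `E0 (IA 3)` that does not follow from the quadratic ones
-/

set_option autoImplicit false

namespace Pool.Agent.Q7.GL

open scoped commutatorElement

/-! ### The invariants -/

/-- abbreviation for the automorphism group of the free group of rank three -/
abbrev Au := MulAut (FreeGroup (Fin 3))

/-- coefficient of `[y, z]` in the image of `x` -/
def tt (φ : Au) : ℤ := B φ 0 1 2
/-- first combination -/
def AA (φ : Au) : ℤ := B φ 0 0 1 - B φ 2 2 1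
/-- second combination -/
def PP (φ : Au) : ℤ := B φ 0 0 2 - B φ 1 1 2
/-- first degree three invariant -/
def SS (φ : Au) : ℤ := C φ 0 0 1 2 - C φ 1 1 1 2
/-- second degree three invariant -/
def WW (φ : Au) : ℤ := C φ 0 1 2 2

lemma SS_mul {φ ψ : Au} (hφ : φ ∈ IA 3) (hψ : ψ ∈ IA 3) :
    SS (φ * ψ) = SS φ + SS ψ +
      (∑ i, B ψ 0 i 2 * B φ i 0 1 + ∑ i, B ψ 0 0 i * B φ i 1 2
        - ∑ i, B ψ 1 i 2 * B φ i 1 1 - ∑ i, B ψ 1 1 i * B φ i 1 2) := by
  unfold SS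
  rw [C_mul hφ hψ, C_mul hφ hψ]
  ring

lemma WW_mul {φ ψ : Au} (hφ : φ ∈ IA 3) (hψ : ψ ∈ IA 3) :
    WW (φ * ψ) = WW φ + WW ψ +
      (∑ i, B ψ 0 i 2 * B φ i 1 2 + ∑ i, B ψ 0 1 i * B φ i 2 2) := by
  unfold WW
  rw [C_mul hφ hψ]
  ring

lemma B_comm {φ ψ : Au} (hφ : φ ∈ IA 3) (hψ : ψ ∈ IA 3) (i j k : Fin 3) :
    B ⁅φ, ψ⁆ i j k = 0 := by
  have h1 : φ * ψ = ⁅φ, ψ⁆ * (ψ * φ) := by simp [commutatorElement_def, mul_assoc]
  have hc : ⁅φ, ψ⁆ ∈ IA 3 := by
    rw [commutatorElement_def]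
    exact mul_mem (mul_mem (mul_mem hφ hψ) (inv_mem hφ)) (inv_mem hψ)
  have h2 := B_mul hφ hψ i j k
  rw [h1, B_mul hc (mul_mem hψ hφ), B_mul hψ hφ] at h2
  linarith

lemma SS_comm {φ ψ : Au} (hφ : φ ∈ IA 3) (hψ : ψ ∈ IA 3) :
    SS ⁅φ, ψ⁆ = AA φ * PP ψ - AA ψ * PP φ := by
  have h1 : φ * ψ = ⁅φ, ψ⁆ * (ψ * φ) := by simp [commutatorElement_def, mul_assoc]
  have hc : ⁅φ, ψ⁆ ∈ IA 3 := by
    rw [commutatorElement_def]
    exact mul_mem (mul_mem (mul_mem hφ hψ) (inv_mem hφ)) (inv_mem hψ)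
  have h2 := SS_mul hφ hψ
  rw [h1, SS_mul hc (mul_mem hψ hφ), SS_mul hψ hφ] at h2
  simp only [B_comm hφ hψ, mul_zero, Finset.sum_const_zero] at h2
  simp only [Fin.sum_univ_three] at h2
  have e1 := B_anti hφ 2 2 1 (by decide)
  have e2 := B_anti hψ 2 2 1 (by decide)
  have e3 := B_anti hφ 1 1 0 (by decide)
  have e4 := B_anti hψ 1 1 0 (by decide)
  simp only [B_diag hφ, B_diag hψ] at h2
  unfold AA PP
  rw [e1, e2]
  rw [e3, e4] at h2
  linarith

lemma WW_comm {φ ψ : Au} (hφ : φ ∈ IA 3) (hψ : ψ ∈ IA 3) :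
    WW ⁅φ, ψ⁆ = tt φ * PP ψ - tt ψ * PP φ := by
  have h1 : φ * ψ = ⁅φ, ψ⁆ * (ψ * φ) := by simp [commutatorElement_def, mul_assoc]
  have hc : ⁅φ, ψ⁆ ∈ IA 3 := by
    rw [commutatorElement_def]
    exact mul_mem (mul_mem (mul_mem hφ hψ) (inv_mem hφ)) (inv_mem hψ)
  have h2 := WW_mul hφ hψ
  rw [h1, WW_mul hc (mul_mem hψ hφ), WW_mul hψ hφ] at h2
  simp only [B_comm hφ hψ, mul_zero, Finset.sum_const_zero] at h2
  simp only [Fin.sum_univ_three] at h2
  simp only [B_diag hφ, B_diag hψ] at h2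
  unfold PP tt
  linarith

/-! ### The nilpotent Lie ring of rank six -/

/-- The Lie ring on `ℤ^6` with basis `t, a, p` (degree one), `s, w` (degree two), `z` (degree
three) and brackets `[a, p] = s`, `[t, p] = w`, `[t, s] = z`, `[a, w] = z`. -/
def M6 : Type := Fin 6 → ℤ

namespace M6

instance : AddCommGroup M6 := inferInstanceAs (AddCommGroup (Fin 6 → ℤ))

@[ext] lemma ext' {x y : M6} (h : ∀ i, x i = y i) : x = y := funext h

@[simp] lemma add_ap (x y : M6) (i : Fin 6) : (x + y) i = x i + y i := rfl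
@[simp] lemma neg_ap (x : M6) (i : Fin 6) : (-x) i = -x i := rfl
@[simp] lemma zero_ap (i : Fin 6) : (0 : M6) i = 0 := rfl

/-- the element with given coordinates -/
def mk6 (a0 a1 a2 a3 a4 a5 : ℤ) : M6 := ![a0, a1, a2, a3, a4, a5]

@[simp] lemma mk6_0 (a0 a1 a2 a3 a4 a5 : ℤ) : mk6 a0 a1 a2 a3 a4 a5 0 = a0 := rfl
@[simp] lemma mk6_1 (a0 a1 a2 a3 a4 a5 : ℤ) : mk6 a0 a1 a2 a3 a4 a5 1 = a1 := rfl
@[simp] lemma mk6_2 (a0 a1 a2 a3 a4 a5 : ℤ) : mk6 a0 a1 a2 a3 a4 a5 2 = a2 := rfl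
@[simp] lemma mk6_3 (a0 a1 a2 a3 a4 a5 : ℤ) : mk6 a0 a1 a2 a3 a4 a5 3 = a3 := rfl
@[simp] lemma mk6_4 (a0 a1 a2 a3 a4 a5 : ℤ) : mk6 a0 a1 a2 a3 a4 a5 4 = a4 := rfl
@[simp] lemma mk6_5 (a0 a1 a2 a3 a4 a5 : ℤ) : mk6 a0 a1 a2 a3 a4 a5 5 = a5 := rfl

/-- the bracket -/
def br (x y : M6) : M6 :=
  ![0, 0, 0, x 1 * y 2 - x 2 * y 1, x 0 * y 2 - x 2 * y 0,
    x 0 * y 3 - x 3 * y 0 + (x 1 * y 4 - x 4 * y 1)]

@[simp] lemma br0 (x y : M6) : br x y 0 = 0 := rfl
@[simp] lemma br1 (x y : M6) : br x y 1 = 0 := rfl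
@[simp] lemma br2 (x y : M6) : br x y 2 = 0 := rfl
@[simp] lemma br3 (x y : M6) : br x y 3 = x 1 * y 2 - x 2 * y 1 := rfl
@[simp] lemma br4 (x y : M6) : br x y 4 = x 0 * y 2 - x 2 * y 0 := rfl
@[simp] lemma br5 (x y : M6) :
    br x y 5 = x 0 * y 3 - x 3 * y 0 + (x 1 * y 4 - x 4 * y 1) := rfl

instance : Bracket M6 M6 := ⟨br⟩

lemma lie_def (x y : M6) : ⁅x, y⁆ = br x y := rfl

lemma forall6 {p : Fin 6 → Prop} (h0 : p 0) (h1 : p 1) (h2 : p 2) (h3 : p 3) (h4 : p 4)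
    (h5 : p 5) : ∀ i, p i := by
  intro i
  fin_cases i
  exacts [h0, h1, h2, h3, h4, h5]

instance : LieRing M6 where
  add_lie x y z := by
    ext i
    revert i
    apply forall6 <;> simp only [lie_def, add_ap, br0, br1, br2, br3, br4, br5] <;> ring
  lie_add x y z := by
    ext i
    revert i
    apply forall6 <;> simp only [lie_def, add_ap, br0, br1, br2, br3, br4, br5] <;> ring
  lie_self x := by
    ext i
    revert i
    apply forall6 <;> simp only [lie_def, zero_ap, br0, br1, br2, br3, br4, br5] <;> ring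
  leibniz_lie x y z := by
    ext i
    revert i
    apply forall6 <;> simp only [lie_def, add_ap, br0, br1, br2, br3, br4, br5] <;> ring

end M6

/-! ### Maps from the graded pieces -/

section
variable {G : Type*} [Group G] {A : Type*} [AddCommGroup A]

/-- additive maps out of a graded piece -/
noncomputable def gr.lift (n : ℕ) (f : Gam G n → A)
    (hmul : ∀ g h : Gam G n, f (g * h) = f g + f h)
    (hker : ∀ g : Gam G n, (g : G) ∈ Gam G (n + 1) → f g = 0) : gr G n →+ A :=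
  MonoidHom.toAdditiveLeft (QuotientGroup.lift ((Gam G (n + 1)).subgroupOf (Gam G n))
    ({ toFun := fun g => Multiplicative.ofAdd (f g)
       map_one' := by
         have := hmul 1 1
         simp at this
         rw [this]; rfl
       map_mul' := by intro g h; rw [hmul]; rfl } : Gam G n →* Multiplicative A)
    (by
      intro g hg
      exact hker g hg))

lemma gr.lift_cl (n : ℕ) (f : Gam G n → A)
    (hmul : ∀ g h : Gam G n, f (g * h) = f g + f h)
    (hker : ∀ g : Gam G n, (g : G) ∈ Gam G (n + 1) → f g = 0) (g : G) (hg : g ∈ Gam G n) :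
    gr.lift n f hmul hker (cl n g hg) = f ⟨g, hg⟩ := rfl

end

/-- `B` vanishes on commutators -/
lemma B_Gam1 (g : IA 3) (hg : g ∈ Gam (IA 3) 1) (i j k : Fin 3) : B (g : Au) i j k = 0 := by
  let f : IA 3 →* Multiplicative ℤ :=
    { toFun := fun g => Multiplicative.ofAdd (B (g : Au) i j k)
      map_one' := by
        have := B_mul (one_mem (IA 3)) (one_mem (IA 3)) i j k
        simp at this
        change Multiplicative.ofAdd (B (1 : Au) i j k) = 1
        rw [this]; rfl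
      map_mul' := by
        intro g h
        change Multiplicative.ofAdd (B ((g : Au) * (h : Au)) i j k) = _
        rw [B_mul g.2 h.2]; rfl }
  have : Gam (IA 3) 1 ≤ f.ker := by
    rw [Gam_succ, Subgroup.commutator_le]
    intro g _ h _
    rw [MonoidHom.mem_ker, map_commutatorElement, commutatorElement_eq_one_iff_mul_comm]
    exact mul_comm _ _
  exact this hg

/-- the map in degree one -/
noncomputable def Lam : gr (IA 3) 0 →+ M6 :=
  gr.lift 0 (fun g => M6.mk6 (tt (g : IA 3)) (AA (g : IA 3)) (PP (g : IA 3)) 0 0 0)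
    (by
      intro g h
      ext i
      revert i
      have e : ∀ i j k, B (((g * h : Gam (IA 3) 0) : IA 3) : Au) i j k =
          B ((g : IA 3) : Au) i j k + B ((h : IA 3) : Au) i j k :=
        fun i j k => B_mul (g : IA 3).2 (h : IA 3).2 i j k
      apply M6.forall6
      · exact e _ _ _
      · change AA _ = AA _ + AA _
        unfold AA; rw [e, e]; ring
      · change PP _ = PP _ + PP _
        unfold PP; rw [e, e]; ring
      · rfl
      · rfl
      · rfl)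
    (by
      intro g hg
      have e := B_Gam1 (g : IA 3) hg
      ext i
      revert i
      apply M6.forall6
      · exact e _ _ _
      · change AA _ = 0
        unfold AA; rw [e, e]; ring
      · change PP _ = 0
        unfold PP; rw [e, e]; ring
      · rfl
      · rfl
      · rfl)

lemma Gam2_zero (f : Gam (IA 3) 1 → ℤ) (hmul : ∀ g h, f (g * h) = f g + f h)
    (hcomm : ∀ (g h : IA 3) (hg : g ∈ Gam (IA 3) 1),
      f ⟨⁅g, h⁆, comm_mem' (i := 1) (j := 0) hg trivial (by omega)⟩ = 0)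
    (g : Gam (IA 3) 1) (hg : (g : IA 3) ∈ Gam (IA 3) 2) : f g = 0 := by
  let F : Gam (IA 3) 1 →* Multiplicative ℤ :=
    { toFun := fun g => Multiplicative.ofAdd (f g)
      map_one' := by
        have := hmul 1 1
        simp at this
        rw [this]; rfl
      map_mul' := by intro g h; rw [hmul]; rfl }
  have h1 : Gam (IA 3) 2 ≤ F.ker.map (Gam (IA 3) 1).subtype := by
    rw [Gam_succ, Subgroup.commutator_le]
    intro g hg h _
    refine ⟨⟨⁅g, h⁆, comm_mem' (i := 1) (j := 0) hg trivial (by omega)⟩, ?_, rfl⟩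
    exact hcomm g h hg
  obtain ⟨g', hg', e⟩ := h1 hg
  have : g' = g := Subtype.ext e
  rw [← this]
  exact hg'

lemma SS_add (g h : Gam (IA 3) 1) : SS (((g * h : Gam (IA 3) 1) : IA 3) : Au) =
    SS ((g : IA 3) : Au) + SS ((h : IA 3) : Au) := by
  have := SS_mul (g : IA 3).2 (h : IA 3).2
  have e := B_Gam1 (g : IA 3) g.2
  simp only [e, mul_zero, Finset.sum_const_zero] at this
  simpa using this

lemma WW_add (g h : Gam (IA 3) 1) : WW (((g * h : Gam (IA 3) 1) : IA 3) : Au) =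
    WW ((g : IA 3) : Au) + WW ((h : IA 3) : Au) := by
  have := WW_mul (g : IA 3).2 (h : IA 3).2
  have e := B_Gam1 (g : IA 3) g.2
  simp only [e, mul_zero, Finset.sum_const_zero] at this
  simpa using this

/-- the map in degree two -/
noncomputable def Th : gr (IA 3) 1 →+ M6 :=
  gr.lift 1 (fun g => M6.mk6 0 0 0 (SS (g : IA 3)) (WW (g : IA 3)) 0)
    (by
      intro g h
      ext i
      revert i
      apply M6.forall6
      · rfl
      · rfl
      · rfl
      · exact SS_add g h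
      · exact WW_add g h
      · rfl)
    (by
      intro g hg
      ext i
      revert i
      apply M6.forall6
      · rfl
      · rfl
      · rfl
      · refine Gam2_zero (fun g => SS ((g : IA 3) : Au)) SS_add ?_ g hg
        intro g h hg
        have := SS_comm g.2 h.2
        have e := B_Gam1 g hg
        change SS ⁅(g : Au), (h : Au)⁆ = 0
        rw [this]
        unfold AA PP
        simp [e]
      · refine Gam2_zero (fun g => WW ((g : IA 3) : Au)) WW_add ?_ g hg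
        intro g h hg
        have := WW_comm g.2 h.2
        have e := B_Gam1 g hg
        change WW ⁅(g : Au), (h : Au)⁆ = 0
        rw [this]
        unfold tt PP
        simp [e]
      · rfl)

lemma Lam_cl (g : IA 3) (hg : g ∈ Gam (IA 3) 0) :
    Lam (cl 0 g hg) = M6.mk6 (tt (g : Au)) (AA (g : Au)) (PP (g : Au)) 0 0 0 := by
  unfold Lam; rw [gr.lift_cl]

lemma Th_cl (g : IA 3) (hg : g ∈ Gam (IA 3) 1) :
    Th (cl 1 g hg) = M6.mk6 0 0 0 (SS (g : Au)) (WW (g : Au)) 0 := by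
  unfold Th; rw [gr.lift_cl]

lemma compat_aux (g h : IA 3) (hg : g ∈ Gam (IA 3) 0) (hh : h ∈ Gam (IA 3) 0)
    (hgh : ⁅g, h⁆ ∈ Gam (IA 3) 1) :
    ⁅Lam (cl 0 g hg), Lam (cl 0 h hh)⁆ = Th (cl 1 ⁅g, h⁆ hgh) := by
  rw [Lam_cl, Lam_cl, Th_cl]
  have e4 : SS ((⁅g, h⁆ : IA 3) : Au) = AA (g : Au) * PP (h : Au) - AA (h : Au) * PP (g : Au) :=
    SS_comm g.2 h.2
  have e5 : WW ((⁅g, h⁆ : IA 3) : Au) = tt (g : Au) * PP (h : Au) - tt (h : Au) * PP (g : Au) :=
    WW_comm g.2 h.2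
  rw [e4, e5, M6.lie_def]
  ext i
  revert i
  apply M6.forall6 <;> simp <;> ring

/-! ### The automorphisms -/

/-- the three generators -/
abbrev X0 : FreeGroup (Fin 3) := FreeGroup.of 0
/-- the second generator -/
abbrev X1 : FreeGroup (Fin 3) := FreeGroup.of 1
/-- the third generator -/
abbrev X2 : FreeGroup (Fin 3) := FreeGroup.of 2

/-- `x ↦ x [y, z]`, `y ↦ y`, `z ↦ z` -/
def aT : Au := MonoidHom.toMulEquiv
  (FreeGroup.lift ![X0 * ⁅X1, X2⁆, X1, X2])
  (FreeGroup.lift ![X0 * ⁅X1, X2⁆⁻¹, X1, X2])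
  (by ext i; fin_cases i <;> simp [commutatorElement_def, mul_assoc])
  (by ext i; fin_cases i <;> simp [commutatorElement_def, mul_assoc])

/-- `x ↦ y⁻¹ x y`, `y ↦ y`, `z ↦ z` -/
def aA : Au := MonoidHom.toMulEquiv
  (FreeGroup.lift ![X1⁻¹ * X0 * X1, X1, X2])
  (FreeGroup.lift ![X1 * X0 * X1⁻¹, X1, X2])
  (by ext i; fin_cases i <;> simp [mul_assoc])
  (by ext i; fin_cases i <;> simp [mul_assoc])

/-- `x ↦ z⁻¹ x z`, `y ↦ y`, `z ↦ z` -/
def aP : Au := MonoidHom.toMulEquiv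
  (FreeGroup.lift ![X2⁻¹ * X0 * X2, X1, X2])
  (FreeGroup.lift ![X2 * X0 * X2⁻¹, X1, X2])
  (by ext i; fin_cases i <;> simp [mul_assoc])
  (by ext i; fin_cases i <;> simp [mul_assoc])

lemma aT_apply (w : FreeGroup (Fin 3)) :
    aT w = FreeGroup.lift ![X0 * ⁅X1, X2⁆, X1, X2] w := rfl
lemma aA_apply (w : FreeGroup (Fin 3)) :
    aA w = FreeGroup.lift ![X1⁻¹ * X0 * X1, X1, X2] w := rfl
lemma aP_apply (w : FreeGroup (Fin 3)) :
    aP w = FreeGroup.lift ![X2⁻¹ * X0 * X2, X1, X2] w := rfl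
lemma aA_inv_apply (w : FreeGroup (Fin 3)) :
    aA⁻¹ w = FreeGroup.lift ![X1 * X0 * X1⁻¹, X1, X2] w := rfl
lemma aP_inv_apply (w : FreeGroup (Fin 3)) :
    aP⁻¹ w = FreeGroup.lift ![X2 * X0 * X2⁻¹, X1, X2] w := rfl

lemma mem_of_gens {φ : Au}
    (h : ∀ i, Abelianization.of (φ (FreeGroup.of i)) = Abelianization.of (FreeGroup.of i)) :
    φ ∈ IA 3 := by
  have : (Abelianization.of.comp φ.toMonoidHom) = Abelianization.of := by
    ext i; exact h i
  intro w
  exact DFunLike.congr_fun this w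

lemma aT_mem : aT ∈ IA 3 := by
  apply mem_of_gens
  intro i
  rw [aT_apply]
  fin_cases i <;> simp [commutatorElement_def, mul_comm]

lemma aA_mem : aA ∈ IA 3 := by
  apply mem_of_gens
  intro i
  rw [aA_apply]
  fin_cases i <;> simp [mul_comm]

lemma aP_mem : aP ∈ IA 3 := by
  apply mem_of_gens
  intro i
  rw [aP_apply]
  fin_cases i <;> simp [mul_comm]

/-- the cubic relation -/
lemma cubic : ⁅aT, ⁅aA, aP⁆⁆ = 1 := by
  rw [commutatorElement_eq_one_iff_mul_comm]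
  apply MulEquiv.toMonoidHom_injective
  ext i
  change aT (⁅aA, aP⁆ (FreeGroup.of i)) = ⁅aA, aP⁆ (aT (FreeGroup.of i))
  have e : ∀ w, ⁅aA, aP⁆ w = aA (aP (aA⁻¹ (aP⁻¹ w))) := fun w => rfl
  rw [e, e]
  simp only [aT_apply, aA_apply, aP_apply, aA_inv_apply, aP_inv_apply]
  fin_cases i <;> simp [commutatorElement_def, mul_assoc]

lemma tt_aT : tt aT = 1 := by
  unfold tt B; rw [aT_apply]; simp [commutatorElement_def]
lemma AA_aT : AA aT = 0 := by
  unfold AA B; rw [aT_apply, aT_apply]; simp [commutatorElement_def]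
lemma PP_aT : PP aT = 0 := by
  unfold PP B; rw [aT_apply, aT_apply]; simp [commutatorElement_def]
lemma tt_aA : tt aA = 0 := by
  unfold tt B; rw [aA_apply]; simp
lemma AA_aA : AA aA = 1 := by
  unfold AA B; rw [aA_apply, aA_apply]; simp
lemma PP_aA : PP aA = 0 := by
  unfold PP B; rw [aA_apply, aA_apply]; simp
lemma tt_aP : tt aP = 0 := by
  unfold tt B; rw [aP_apply]; simp
lemma AA_aP : AA aP = 0 := by
  unfold AA B; rw [aP_apply, aP_apply]; simp
lemma PP_aP : PP aP = 1 := by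
  unfold PP B; rw [aP_apply, aP_apply]; simp

/-- `E0 (IA 3)` is not quadratically presented. -/
theorem not_quadPres : ¬ QuadPres (IA 3) := by
  intro h
  have hT : (⟨aT, aT_mem⟩ : IA 3) ∈ Gam (IA 3) 0 := trivial
  have hA : (⟨aA, aA_mem⟩ : IA 3) ∈ Gam (IA 3) 0 := trivial
  have hP : (⟨aP, aP_mem⟩ : IA 3) ∈ Gam (IA 3) 0 := trivial
  have h1 := h.kill' Lam Th compat_aux (natMap_triple _ _ _ hT hA hP (Subtype.ext cubic))
  rw [LieHom.map_lie, LieHom.map_lie, FL.lift_ι, FL.lift_ι, FL.lift_ι, Lam_cl, Lam_cl,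
    Lam_cl] at h1
  simp only [tt_aT, AA_aT, PP_aT, tt_aA, AA_aA, PP_aA, tt_aP, AA_aP, PP_aP] at h1
  have h2 : (⁅M6.mk6 1 0 0 0 0 0, ⁅M6.mk6 0 1 0 0 0 0, M6.mk6 0 0 1 0 0 0⁆⁆ : M6) 5 = 1 := by
    simp [M6.lie_def]
  rw [h1] at h2
  simp at h2

end Pool.Agent.Q7.GL
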