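import Pool.Agent.Q7.GL.Quad

/-!
# The group `IA n` and the Magnus coefficients of length at most three
-/

set_option autoImplicit false

namespace Pool.Agent.Q7.GL

/-- `IA n`: the automorphisms of the free group of rank `n` that induce the identity on its
abelianization. -/
def IA (n : ℕ) : Subgroup (MulAut (FreeGroup (Fin n))) where
  carrier := {φ | ∀ w, Abelianization.of (φ w) = Abelianization.of w}
  mul_mem' := by
    intro φ ψ hφ hψ w
    rw [MulAut.mul_apply, hφ, hψ]
  one_mem' := by intro w; rfl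
  inv_mem' := by
    intro φ hφ w
    rw [← hφ (φ⁻¹ w), MulAut.apply_inv_self]

lemma mem_IA {n : ℕ} {φ : MulAut (FreeGroup (Fin n))} :
    φ ∈ IA n ↔ ∀ w, Abelianization.of (φ w) = Abelianization.of w := Iff.rfl

/-- truncated non-commutative power series with constant term one, up to degree three -/
@[ext] structure Mag where
  /-- coefficients of degree one -/
  a : Fin 3 → ℤ
  /-- coefficients of degree two -/
  b : Fin 3 → Fin 3 → ℤ
  /-- coefficients of degree three -/
  c : Fin 3 → Fin 3 → Fin 3 → ℤ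

namespace Mag

instance : Mul Mag := ⟨fun x y => ⟨fun i => x.a i + y.a i,
  fun i j => x.b i j + y.b i j + x.a i * y.a j,
  fun i j k => x.c i j k + y.c i j k + x.a i * y.b j k + x.b i j * y.a k⟩⟩

instance : One Mag := ⟨⟨fun _ => 0, fun _ _ => 0, fun _ _ _ => 0⟩⟩

instance : Inv Mag := ⟨fun x => ⟨fun i => -x.a i,
  fun i j => -x.b i j + x.a i * x.a j,
  fun i j k => -x.c i j k + x.a i * x.b j k + x.b i j * x.a k - x.a i * x.a j * x.a k⟩⟩

@[simp] lemma mul_a (x y : Mag) (i : Fin 3) : (x * y).a i = x.a i + y.a i := rfl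
@[simp] lemma mul_b (x y : Mag) (i j : Fin 3) :
    (x * y).b i j = x.b i j + y.b i j + x.a i * y.a j := rfl
@[simp] lemma mul_c (x y : Mag) (i j k : Fin 3) :
    (x * y).c i j k = x.c i j k + y.c i j k + x.a i * y.b j k + x.b i j * y.a k := rfl
@[simp] lemma one_a (i : Fin 3) : (1 : Mag).a i = 0 := rfl
@[simp] lemma one_b (i j : Fin 3) : (1 : Mag).b i j = 0 := rfl
@[simp] lemma one_c (i j k : Fin 3) : (1 : Mag).c i j k = 0 := rfl
@[simp] lemma inv_a (x : Mag) (i : Fin 3) : (x⁻¹).a i = -x.a i := rfl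
@[simp] lemma inv_b (x : Mag) (i j : Fin 3) : (x⁻¹).b i j = -x.b i j + x.a i * x.a j := rfl
@[simp] lemma inv_c (x : Mag) (i j k : Fin 3) :
    (x⁻¹).c i j k = -x.c i j k + x.a i * x.b j k + x.b i j * x.a k - x.a i * x.a j * x.a k := rfl

instance : Group Mag := Group.ofLeftAxioms
  (by intro x y z; ext <;> simp <;> ring)
  (by intro x; ext <;> simp)
  (by intro x; ext <;> simp <;> ring)

end Mag

/-- the Magnus expansion up to degree three -/
def mu : FreeGroup (Fin 3) →* Mag :=
  FreeGroup.lift (fun i => ⟨fun j => if j = i then 1 else 0, fun _ _ => 0, fun _ _ _ => 0⟩)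

@[simp] lemma mu_of (i : Fin 3) : mu (FreeGroup.of i) =
    ⟨fun j => if j = i then 1 else 0, fun _ _ => 0, fun _ _ _ => 0⟩ := by
  simp [mu]

/-- a function on the free group which is additive and zero on generators vanishes -/
lemma zero_of_hom (f : FreeGroup (Fin 3) → ℤ) (hmul : ∀ v w, f (v * w) = f v + f w)
    (hgen : ∀ i, f (FreeGroup.of i) = 0) (w : FreeGroup (Fin 3)) : f w = 0 := by
  have h1 : f 1 = 0 := by have := hmul 1 1; simp at this; exact this
  let F : FreeGroup (Fin 3) →* Multiplicative ℤ :=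
    { toFun := fun w => Multiplicative.ofAdd (f w)
      map_one' := by rw [h1]; rfl
      map_mul' := by intro v w; rw [hmul]; rfl }
  have : F = 1 := by
    ext i
    change Multiplicative.ofAdd (f (FreeGroup.of i)) = 1
    rw [hgen]; rfl
  have h2 := DFunLike.congr_fun this w
  exact h2

lemma b_sym (w : FreeGroup (Fin 3)) (j k : Fin 3) (h : j ≠ k) :
    (mu w).b j k + (mu w).b k j = (mu w).a j * (mu w).a k := by
  have := zero_of_hom (fun w => (mu w).b j k + (mu w).b k j - (mu w).a j * (mu w).a k)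
    (by intro v w; simp only [map_mul, Mag.mul_a, Mag.mul_b]; ring)
    (by
      intro i
      rw [mu_of]
      by_cases h1 : j = i
      · subst h1; simp [Ne.symm h]
      · simp [h1]) w
  linarith

lemma b_diag (w : FreeGroup (Fin 3)) (j : Fin 3) :
    2 * (mu w).b j j = (mu w).a j * (mu w).a j - (mu w).a j := by
  have := zero_of_hom (fun w => 2 * (mu w).b j j - (mu w).a j * (mu w).a j + (mu w).a j)
    (by intro v w; simp only [map_mul, Mag.mul_a, Mag.mul_b]; ring)
    (by
      intro i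
      rw [mu_of]
      by_cases h1 : j = i
      · subst h1; simp
      · simp [h1]) w
  linarith

/-- the abelian part as a homomorphism -/
def aHom : FreeGroup (Fin 3) →* Multiplicative (Fin 3 → ℤ) where
  toFun w := Multiplicative.ofAdd (mu w).a
  map_one' := by rw [map_one]; rfl
  map_mul' v w := by rw [map_mul]; rfl

lemma a_of_IA {φ : MulAut (FreeGroup (Fin 3))} (h : φ ∈ IA 3) (w : FreeGroup (Fin 3)) :
    (mu (φ w)).a = (mu w).a := by
  have h1 : Abelianization.lift aHom (Abelianization.of (φ w)) =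
      Abelianization.lift aHom (Abelianization.of w) := by rw [h w]
  rw [Abelianization.lift_apply_of, Abelianization.lift_apply_of] at h1
  exact h1

/-- degree two coefficients of `φ (x_i)` -/
def B (φ : MulAut (FreeGroup (Fin 3))) (i j k : Fin 3) : ℤ := (mu (φ (FreeGroup.of i))).b j k

/-- degree three coefficients of `φ (x_i)` -/
def C (φ : MulAut (FreeGroup (Fin 3))) (i j k l : Fin 3) : ℤ :=
  (mu (φ (FreeGroup.of i))).c j k l

lemma b_apply {φ : MulAut (FreeGroup (Fin 3))} (h : φ ∈ IA 3) (w : FreeGroup (Fin 3))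
    (j k : Fin 3) :
    (mu (φ w)).b j k = (mu w).b j k + ∑ i, (mu w).a i * B φ i j k := by
  have := zero_of_hom
    (fun w => (mu (φ w)).b j k - (mu w).b j k - ∑ i, (mu w).a i * B φ i j k)
    (by
      intro v w
      simp only [map_mul, Mag.mul_a, Mag.mul_b, a_of_IA h, Fin.sum_univ_three]; ring)
    (by
      intro i
      simp [mu_of, B]) w
  linarith

lemma c_apply {φ : MulAut (FreeGroup (Fin 3))} (h : φ ∈ IA 3) (w : FreeGroup (Fin 3))
    (j k l : Fin 3) :
    (mu (φ w)).c j k l = (mu w).c j k l + ∑ i, (mu w).b i l * B φ i j k +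
      ∑ i, (mu w).b j i * B φ i k l + ∑ i, (mu w).a i * C φ i j k l := by
  have := zero_of_hom
    (fun w => (mu (φ w)).c j k l - (mu w).c j k l - ∑ i, (mu w).b i l * B φ i j k -
      ∑ i, (mu w).b j i * B φ i k l - ∑ i, (mu w).a i * C φ i j k l)
    (by
      intro v w
      simp only [map_mul, Mag.mul_a, Mag.mul_b, Mag.mul_c, a_of_IA h, b_apply h,
        Fin.sum_univ_three]
      ring)
    (by
      intro i
      simp [mu_of, C]) w
  linarith

lemma B_mul {φ ψ : MulAut (FreeGroup (Fin 3))} (hφ : φ ∈ IA 3) (hψ : ψ ∈ IA 3)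
    (i j k : Fin 3) : B (φ * ψ) i j k = B φ i j k + B ψ i j k := by
  unfold B
  rw [MulAut.mul_apply, b_apply hφ, a_of_IA hψ]
  simp [mu_of, B]
  ring

lemma C_mul {φ ψ : MulAut (FreeGroup (Fin 3))} (hφ : φ ∈ IA 3) (hψ : ψ ∈ IA 3)
    (m j k l : Fin 3) : C (φ * ψ) m j k l = C φ m j k l + C ψ m j k l +
      ∑ i, B ψ m i l * B φ i j k + ∑ i, B ψ m j i * B φ i k l := by
  unfold C
  rw [MulAut.mul_apply, c_apply hφ, a_of_IA hψ]
  simp [mu_of, B, C]
  ring

lemma B_anti {φ : MulAut (FreeGroup (Fin 3))} (hφ : φ ∈ IA 3) (i j k : Fin 3) (h : j ≠ k) :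
    B φ i j k = - B φ i k j := by
  have h1 := b_sym (φ (FreeGroup.of i)) j k h
  rw [a_of_IA hφ, mu_of] at h1
  have h2 : (if j = i then (1 : ℤ) else 0) * (if k = i then (1 : ℤ) else 0) = 0 := by
    by_cases hj : j = i
    · have hk : k ≠ i := fun hk => h (hj.trans hk.symm)
      simp [hk]
    · simp [hj]
  simp only [h2] at h1
  unfold B
  linarith

lemma B_diag {φ : MulAut (FreeGroup (Fin 3))} (hφ : φ ∈ IA 3) (i j : Fin 3) :
    B φ i j j = 0 := by
  have h1 := b_diag (φ (FreeGroup.of i)) j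
  rw [a_of_IA hφ, mu_of] at h1
  unfold B
  by_cases hj : j = i
  · simp [hj] at h1; simpa [hj] using h1
  · simp [hj] at h1; exact h1

end Pool.Agent.Q7.GL
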