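import Pool.Agent.Q7.GL.Basic

/-!
# Free Lie rings on abelian groups, and quadratic presentation of `E0 G`
-/

set_option autoImplicit false

noncomputable section

namespace Pool.Agent.Q7.GL

open Subgroup DirectSum
open scoped commutatorElement

/-- The Lie ideal of linear relations in the free Lie ring on the set `V`. -/
def linRel (V : Type*) [AddCommGroup V] : LieIdeal ℤ (FreeLieAlgebra ℤ V) :=
  LieSubmodule.lieSpan ℤ (FreeLieAlgebra ℤ V)
    {x | ∃ v w : V, x = FreeLieAlgebra.of ℤ (v + w) -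
      (FreeLieAlgebra.of ℤ v + FreeLieAlgebra.of ℤ w)}

/-- `FL V = L[V]` is the free Lie ring on the abelian group `V`, placed in degree one: the free
Lie ring on the set `V` modulo the linear relations. -/
def FL (V : Type*) [AddCommGroup V] : Type _ := FreeLieAlgebra ℤ V ⧸ linRel V

section

variable {V : Type*} [AddCommGroup V]

instance instFL : LieRing (FL V) :=
  LieSubmodule.Quotient.lieQuotientLieRing (L := FreeLieAlgebra ℤ V) (linRel V)

/-- the projection from the free Lie ring on the set `V` -/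
def FL.mk (x : FreeLieAlgebra ℤ V) : FL V := LieSubmodule.Quotient.mk x

lemma FL.mk_add (x y : FreeLieAlgebra ℤ V) : FL.mk (x + y) = FL.mk x + FL.mk y := rfl

lemma FL.mk_lie (x y : FreeLieAlgebra ℤ V) : FL.mk ⁅x, y⁆ = ⁅FL.mk x, FL.mk y⁆ := rfl

lemma FL.mk_of_add (v w : V) : FL.mk (FreeLieAlgebra.of ℤ (v + w)) =
    FL.mk (FreeLieAlgebra.of ℤ v) + FL.mk (FreeLieAlgebra.of ℤ w) := by
  rw [← FL.mk_add, ← sub_eq_zero]
  exact (LieSubmodule.Quotient.mk_eq_zero' (N := linRel V)).2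
    (LieSubmodule.subset_lieSpan ⟨v, w, rfl⟩)

/-- the inclusion of `V` as the degree one part -/
def FL.ι : V →+ FL V :=
  AddMonoidHom.mk' (fun v => FL.mk (FreeLieAlgebra.of ℤ v)) FL.mk_of_add

variable {L : Type*} [LieRing L]

lemma linRel_le (f : V →+ L) :
    linRel V ≤ (FreeLieAlgebra.lift ℤ (fun v => f v) : FreeLieAlgebra ℤ V →ₗ⁅ℤ⁆ L).ker := by
  apply LieSubmodule.lieSpan_le.2
  rintro x ⟨v, w, rfl⟩
  refine LieHom.mem_ker.2 ?_
  rw [map_sub, map_add, FreeLieAlgebra.lift_of_apply, FreeLieAlgebra.lift_of_apply,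
    FreeLieAlgebra.lift_of_apply, map_add, sub_self]

/-- the underlying additive map of `FL.lift` -/
def FL.liftFun (f : V →+ L) : FL V →ₗ[ℤ] L :=
  Submodule.liftQ (linRel V).toSubmodule
    (FreeLieAlgebra.lift ℤ (fun v => f v) : FreeLieAlgebra ℤ V →ₗ⁅ℤ⁆ L).toLinearMap
      (linRel_le f)

lemma FL.liftFun_lie (f : V →+ L) {x y : FL V} :
    FL.liftFun f ⁅x, y⁆ = ⁅FL.liftFun f x, FL.liftFun f y⁆ := by
  obtain ⟨x⟩ := x
  obtain ⟨y⟩ := y
  exact LieHom.map_lie (FreeLieAlgebra.lift ℤ (fun v => f v) : FreeLieAlgebra ℤ V →ₗ⁅ℤ⁆ L) x y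

/-- the universal property of `FL V`: the Lie ring homomorphism extending `f` -/
def FL.lift (f : V →+ L) : FL V →ₗ⁅ℤ⁆ L :=
  { FL.liftFun f with map_lie' := FL.liftFun_lie f }

lemma FL.lift_ι (f : V →+ L) (v : V) : FL.lift f (FL.ι v) = f v :=
  FreeLieAlgebra.lift_of_apply (R := ℤ) (fun v => f v) v

/-- two Lie ring homomorphisms out of `FL V` that agree on `V` are equal -/
lemma FL.hom_ext {f g : FL V →ₗ⁅ℤ⁆ L} (h : ∀ v, f (FL.ι v) = g (FL.ι v)) : f = g := by
  have key : ∀ x : FreeLieAlgebra ℤ V, f (FL.mk x) = g (FL.mk x) := by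
    let p : FreeLieAlgebra ℤ V →ₗ⁅ℤ⁆ FL V :=
      { toFun := FL.mk, map_add' := FL.mk_add, map_smul' := fun _ _ => rfl,
        map_lie' := fun {x y} => FL.mk_lie x y }
    have : f.comp p = g.comp p := FreeLieAlgebra.hom_ext (fun v => h v)
    intro x
    exact LieHom.congr_fun this x
  ext ⟨x⟩
  exact key x

/-- the degree two part of `FL V`: the additive group generated by the brackets `[v, w]` of
elements of `V` -/
def FL.deg2 (V : Type*) [AddCommGroup V] : AddSubgroup (FL V) :=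
  AddSubgroup.closure {x | ∃ v w : V, x = ⁅FL.ι v, FL.ι w⁆}

end

/-- The natural homomorphism `L[V] → E0 G` where `V = G / [G, G]` is the degree one part of
`E0 G`; it is the identity on `V`. -/
def natMap (G : Type*) [Group G] : FL (gr G 0) →ₗ⁅ℤ⁆ E0 G :=
  FL.lift (E0.of 0)

/-- `E0 G` is a free Lie algebra modulo quadratic relations: the kernel of `L[V] → E0 G` is
generated, as a Lie ideal, by its degree two part. -/
def QuadPres (G : Type*) [Group G] : Prop :=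
  (natMap G).ker =
    LieSubmodule.lieSpan ℤ (FL (gr G 0)) {x | x ∈ FL.deg2 (gr G 0) ∧ natMap G x = 0}

/-- Criterion: maps of the degree one and degree two pieces of `E0 G` to a Lie ring `M` that are
compatible with the bracket; if `E0 G` is quadratically presented then they kill the whole kernel
of `L[V] → E0 G`. -/
theorem QuadPres.kill {G : Type*} [Group G] (h : QuadPres G) {M : Type*} [LieRing M]
    (Λ : gr G 0 →+ M) (θ : gr G 1 →+ M) (hθ : ∀ v w, ⁅Λ v, Λ w⁆ = θ (brFun 0 0 v w))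
    {x : FL (gr G 0)} (hx : natMap G x = 0) : FL.lift Λ x = 0 := by
  let f : ∀ n, gr G n →+ M := fun n => match n with
    | 1 => θ
    | _ => 0
  have h2 : ∀ y ∈ FL.deg2 (gr G 0), FL.lift Λ y = E0.lift f (natMap G y) := by
    intro y hy
    refine AddSubgroup.closure_induction ?_ ?_ ?_ ?_ hy
    · rintro _ ⟨v, w, rfl⟩
      rw [LieHom.map_lie, LieHom.map_lie, FL.lift_ι, FL.lift_ι, natMap, FL.lift_ι, FL.lift_ι]
      have : ⁅E0.of 0 v, E0.of 0 w⁆ = E0.of (G := G) (0 + 0 + 1) (brFun 0 0 v w) :=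
        E0.brk_of 0 0 v w
      rw [this]
      erw [E0.lift_of f 1 (brFun 0 0 v w)]
      exact hθ v w
    · simp
    · intro a b _ _ ha hb
      rw [map_add, ha, hb, map_add, map_add]
    · intro a _ ha
      rw [map_neg, ha, map_neg, map_neg]
  have h3 : (natMap G).ker ≤ (FL.lift Λ).ker := by
    rw [h]
    apply LieSubmodule.lieSpan_le.2
    rintro y ⟨hy, hy0⟩
    have := h2 y hy
    rw [hy0, map_zero] at this
    exact LieHom.mem_ker.2 this
  exact LieHom.mem_ker.1 (h3 (LieHom.mem_ker.2 hx))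

lemma brFun_zero_cl {G : Type*} [Group G] {g k : G} (hg : g ∈ Gam G 0) (hk : k ∈ Gam G 0)
    (h : ⁅g, k⁆ ∈ Gam G 1) :
    (brFun 0 0 (cl 0 g hg) (cl 0 k hk) : gr G 1) = cl 1 ⁅g, k⁆ h := brFun_cl hg hk

theorem QuadPres.kill' {G : Type*} [Group G] (h : QuadPres G) {M : Type*} [LieRing M]
    (Λ : gr G 0 →+ M) (θ : gr G 1 →+ M)
    (hθ : ∀ (x y : G) (hx : x ∈ Gam G 0) (hy : y ∈ Gam G 0) (hxy : ⁅x, y⁆ ∈ Gam G 1),
      ⁅Λ (cl 0 x hx), Λ (cl 0 y hy)⁆ = θ (cl 1 ⁅x, y⁆ hxy))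
    {x : FL (gr G 0)} (hx : natMap G x = 0) : FL.lift Λ x = 0 := by
  refine h.kill Λ θ ?_ hx
  intro v w
  obtain ⟨g, hg, rfl⟩ := cl_surj v
  obtain ⟨k, hk, rfl⟩ := cl_surj w
  have h1 : ⁅g, k⁆ ∈ Gam G 1 := comm_mem' (i := 0) (j := 0) hg hk (by omega)
  exact (hθ g k hg hk h1).trans (congrArg θ (brFun_zero_cl hg hk h1).symm)

/-- the image of a triple bracket of degree one elements under the natural map -/
lemma natMap_triple {G : Type*} [Group G] (x y z : G) (hx : x ∈ Gam G 0) (hy : y ∈ Gam G 0)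
    (hz : z ∈ Gam G 0) (h : ⁅x, ⁅y, z⁆⁆ = 1) :
    natMap G ⁅FL.ι (cl 0 x hx), ⁅FL.ι (cl 0 y hy), FL.ι (cl 0 z hz)⁆⁆ = 0 := by
  rw [LieHom.map_lie, LieHom.map_lie, natMap, FL.lift_ι, FL.lift_ι, FL.lift_ι]
  change ⁅c 0 x hx, ⁅c 0 y hy, c 0 z hz⁆⁆ = 0
  rw [lie_c, lie_c, ← c_one (n := 0 + (0 + 0 + 1) + 1)]
  exact c_congr _ rfl h

end Pool.Agent.Q7.GL

end
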